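import Mathlib

/-!
# One step: a finite aperiodic monoid in which a given element becomes regular
-/

set_option autoImplicit false

namespace Pool.Agent.H61.RA

open Function

variable {M : Type} [Monoid M]

/-- `m` is in the principal left ideal of `a` -/
def InL (a m : M) : Prop := ∃ z, z * a = m

/-- `m` is in the principal right ideal of `a` -/
def InR (a m : M) : Prop := ∃ z, a * z = m

open Classical in
/-- a solution of `z * a = m`, if there is one -/
noncomputable def yy (a m : M) : M := if h : ∃ z, z * a = m then h.choose else 1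

theorem yy_spec {a m : M} (h : InL a m) : yy a m * a = m := by
  unfold yy
  have h' : ∃ z, z * a = m := h
  rw [dif_pos h']
  exact h'.choose_spec

/-- coherence of a state -/
def Coh (a : M) (β : M → Prop × Option M) : Prop :=
  (∀ m, (β m).1 → ∀ n, (∀ n', n * a = n' * a → β (n * m) = β (n' * m)) ∧ (InR a (n * a) → (β (n * m)).1)) ∧
    ∀ m, (β (a * m)).1

/-- the states -/
abbrev X (a : M) : Type := {β : M → Prop × Option M // Coh a β}

/-- the action of `M` on the states -/
def act (a m' : M) (β : X a) : X a :=
  ⟨fun m => β.1 (m * m'), by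
    refine ⟨fun m hm n => ⟨fun n' hn => ?_, fun hn => ?_⟩, fun m => ?_⟩
    · have := (β.2.1 (m * m') hm n).1 n' hn
      simpa [mul_assoc] using this
    · have := (β.2.1 (m * m') hm n).2 hn
      simpa [mul_assoc] using this
    · have := β.2.2 (m * m')
      simpa [mul_assoc] using this⟩

theorem coh_one {a : M} (β : X a) (h : (β.1 1).1) {n n' : M} (hn : n * a = n' * a) : β.1 n = β.1 n' := by
  have := (β.2.1 1 h n).1 n' hn
  simpa using this

theorem coh_st {a : M} (β : X a) (h : (β.1 1).1) {n : M} (hn : InR a (n * a)) : (β.1 n).1 := by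
  have := (β.2.1 1 h n).2 hn
  simpa using this

open Classical in
/-- the function of the state obtained by a push -/
noncomputable def pf (a : M) (β : M → Prop × Option M) (m : M) : Prop × Option M :=
  if InL a m then β (yy a m) else (InR a m, none)

theorem pf_pos {a : M} {β : M → Prop × Option M} {m : M} (h : InL a m) : pf a β m = β (yy a m) := by
  unfold pf; rw [if_pos h]

theorem pf_neg {a : M} {β : M → Prop × Option M} {m : M} (h : ¬ InL a m) : pf a β m = (InR a m, none) := by
  unfold pf; rw [if_neg h]

theorem InL.mul {a m : M} (h : InL a m) (n : M) : InL a (n * m) := by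
  obtain ⟨z, rfl⟩ := h
  exact ⟨n * z, by simp [mul_assoc]⟩

theorem InR.mul {a m : M} (h : InR a m) (n : M) : InR a (m * n) := by
  obtain ⟨z, rfl⟩ := h
  exact ⟨z * n, by simp [mul_assoc]⟩

theorem pf_mul {a : M} (β : X a) (h : (β.1 1).1) {m : M} (hm : InL a m) (n : M) :
    pf a β.1 (n * m) = β.1 (n * yy a m) := by
  rw [pf_pos (hm.mul n)]
  apply coh_one β h
  rw [yy_spec (hm.mul n), mul_assoc, yy_spec hm]

/-- the push -/
noncomputable def push (a : M) (β : X a) (h : (β.1 1).1) : X a :=
  ⟨pf a β.1, by
    refine ⟨fun m hm n => ?_, fun m => ?_⟩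
    · by_cases hL : InL a m
      · rw [pf_pos hL] at hm
        refine ⟨fun n' hn => ?_, fun hn => ?_⟩
        · rw [pf_mul β h hL, pf_mul β h hL]
          exact (β.2.1 _ hm n).1 n' hn
        · rw [pf_mul β h hL]
          exact (β.2.1 _ hm n).2 hn
      · rw [pf_neg hL] at hm
        obtain ⟨z, rfl⟩ := hm
        refine ⟨fun n' hn => ?_, fun hn => ?_⟩
        · rw [← mul_assoc, hn, mul_assoc]
        · have hR : InR a (n * (a * z)) := by
            rw [← mul_assoc]; exact hn.mul z
          by_cases hL' : InL a (n * (a * z))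
          · rw [pf_pos hL']
            apply coh_st β h
            rw [yy_spec hL']
            exact hR
          · rw [pf_neg hL']
            exact hR
    · by_cases hL : InL a (a * m)
      · rw [pf_pos hL]
        apply coh_st β h
        rw [yy_spec hL]
        exact ⟨m, rfl⟩
      · rw [pf_neg hL]
        exact ⟨m, rfl⟩⟩

/-- the action of `M` -/
def A (a m : M) : Function.End (Option (X a)) := Option.map (act a m)

open Classical in
/-- the partial map `u` -/
noncomputable def U (a : M) : Function.End (Option (X a)) :=
  fun o => o.bind fun β => if h : (β.1 1).1 then some (push a β h) else none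

theorem A_mul (a m m' : M) : A a (m * m') = A a m * A a m' := by
  funext o
  cases o with
  | none => rfl
  | some β =>
    show some (act a (m * m') β) = some (act a m (act a m' β))
    congr 1
    apply Subtype.ext
    funext k
    simp [act, mul_assoc]

theorem A_one (a : M) : A a 1 = 1 := by
  funext o
  cases o with
  | none => rfl
  | some β =>
    simp only [A, Option.map_some]
    have : act a 1 β = β := by
      apply Subtype.ext
      funext k
      simp [act]
    rw [this]
    rfl

theorem U_some {a : M} (β : X a) (h : (β.1 1).1) : U a (some β) = some (push a β h) := by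
  unfold U
  simp only [Option.bind_some]
  rw [dif_pos h]

theorem U_st {a : M} {β : X a} (h : U a (some β) ≠ none) : (β.1 1).1 := by
  by_contra h'
  apply h
  unfold U
  simp only [Option.bind_some]
  rw [dif_neg h']

/-- `A` as a homomorphism -/
def Ah (a : M) : M →* Function.End (Option (X a)) where
  toFun := A a
  map_one' := A_one a
  map_mul' := A_mul a

/-- the regularity of `a` -/
theorem A_reg (a : M) : A a a * U a * A a a = A a a := by
  funext o
  cases o with
  | none => rfl
  | some β =>
    have h : ((act a a β).1 1).1 := by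
      have := β.2.2 1
      simpa [act] using this
    have e1 : A a a (some β) = some (act a a β) := rfl
    have e2 : (A a a * U a * A a a) (some β) = A a a (U a (A a a (some β))) := rfl
    rw [e2, e1, U_some _ h]
    simp only [A, Option.map_some, Option.some.injEq]
    apply Subtype.ext
    funext m
    have hL : InL a (m * a) := ⟨m, rfl⟩
    have e3 : (act a a (push a (act a a β) h)).1 m = pf a (act a a β).1 (m * a) := rfl
    rw [e3, pf_pos hL]
    have e4 : (act a a β).1 (yy a (m * a)) = β.1 (yy a (m * a) * a) := rfl
    rw [e4, yy_spec hL]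
    rfl

/-- the base state -/
def base (a : M) : X a :=
  ⟨fun m => (InR a m, some m), by
    refine ⟨fun m hm n => ?_, fun m => ?_⟩
    · obtain ⟨z, rfl⟩ := hm
      refine ⟨fun n' hn => ?_, fun hn => ?_⟩
      · rw [← mul_assoc, hn, mul_assoc]
      · show InR a (n * (a * z))
        rw [← mul_assoc]; exact hn.mul z
    · exact ⟨m, rfl⟩⟩

theorem A_inj (a : M) : Injective (A a) := by
  intro m m' h
  have h1 := congrFun h (some (base a))
  simp only [A, Option.map_some, Option.some.injEq] at h1
  have h2 := congrFun (congrArg Subtype.val h1) 1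
  simp only [act, base, one_mul, Prod.mk.injEq, Option.some.injEq] at h2
  exact h2.2

/-! ## Aperiodicity -/

/-- the words of pushes -/
noncomputable def W (a : M) : List M → Function.End (Option (X a))
  | [] => 1
  | q :: Q => A a q * U a * W a Q

theorem W_append (a : M) (Q Q' : List M) : W a (Q ++ Q') = W a Q * W a Q' := by
  induction Q with
  | nil => simp [W]
  | cons q Q ih => simp [W, ih, mul_assoc]

/-- no element is in the left ideal of `a` -/
def Good (a : M) (Q : List M) : Prop := ∀ q ∈ Q, ¬ InL a q

theorem A_none (a m : M) : A a m none = none := rfl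

theorem U_none (a : M) : U a none = none := rfl

theorem W_none (a : M) (Q : List M) : W a Q none = none := by
  induction Q with
  | nil => rfl
  | cons q Q ih =>
    show A a q (U a (W a Q none)) = none
    rw [ih]; rfl

theorem pow_none {Y : Type} {f : Function.End (Option Y)} (h : f none = none) (k : ℕ) : (f ^ k) none = none := by
  induction k with
  | zero => rfl
  | succ k ih =>
    rw [pow_succ]
    show (f ^ k) (f none) = none
    rw [h, ih]

theorem pop {a q : M} (hq : InL a q) (o : Option (X a)) (h : (A a q * U a) o ≠ none) :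
    (A a q * U a) o = A a (yy a q) o := by
  cases o with
  | none => exact absurd rfl h
  | some β =>
    have e2 : (A a q * U a) (some β) = A a q (U a (some β)) := rfl
    have hs : (β.1 1).1 := by
      apply U_st
      intro h'
      apply h
      rw [e2, h']; rfl
    rw [e2, U_some _ hs]
    simp only [A, Option.map_some, Option.some.injEq]
    apply Subtype.ext
    funext m
    exact pf_mul β hs hq m

/-- `f ≤ g` for strict partial maps -/
def Le {Y : Type} (f g : Function.End (Option Y)) : Prop := ∀ o, f o ≠ none → f o = g o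

theorem Le.pow {Y : Type} {f g : Function.End (Option Y)} (h : Le f g) (hf : f none = none) (k : ℕ) :
    Le (f ^ k) (g ^ k) := by
  induction k with
  | zero => intro o _; rfl
  | succ k ih =>
    intro o ho
    rw [pow_succ] at ho ⊢
    rw [pow_succ]
    have e1 : (f ^ k * f) o = (f ^ k) (f o) := rfl
    have e2 : (g ^ k * g) o = (g ^ k) (g o) := rfl
    rw [e1] at ho ⊢
    rw [e2]
    have h1 : f o ≠ none := by
      intro h'
      rw [h', pow_none hf] at ho
      exact ho rfl
    rw [← h o h1]
    exact ih _ ho

theorem nf1 {a : M} (Q : List M) : ∀ m : M, Good a Q →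
    ∃ Q' e', Good a Q' ∧ Q'.length ≤ Q.length ∧ Le (A a m * W a Q) (W a Q' * A a e') := by
  induction Q with
  | nil =>
    intro m _
    refine ⟨[], m, fun q hq => absurd hq (by simp), le_rfl, fun o _ => ?_⟩
    simp [W]
  | cons q Q ih =>
    intro m hQ
    by_cases hL : InL a (m * q)
    · obtain ⟨Q', e', h1, h2, h3⟩ := ih (yy a (m * q)) (fun q' hq' => hQ q' (List.mem_cons_of_mem _ hq'))
      refine ⟨Q', e', h1, h2.trans (by simp), fun o ho => ?_⟩
      have e1 : (A a m * W a (q :: Q)) o = (A a (m * q) * U a) (W a Q o) := by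
        rw [A_mul]; rfl
      rw [e1] at ho ⊢
      rw [pop hL _ ho]
      rw [pop hL _ ho] at ho
      exact h3 o ho
    · refine ⟨(m * q) :: Q, 1, ?_, le_rfl, fun o _ => ?_⟩
      · intro q' hq'
        rcases List.mem_cons.1 hq' with rfl | h
        · exact hL
        · exact hQ q' (List.mem_cons_of_mem _ h)
      · rw [A_one, mul_one]
        show (A a m * (A a q * U a * W a Q)) o = (A a (m * q) * U a * W a Q) o
        rw [A_mul]
        simp [mul_assoc]

/-- the monoid generated by `M` and `u` -/
noncomputable def TT (a : M) : Submonoid (Function.End (Option (X a))) :=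
  Submonoid.closure (Set.range (A a) ∪ {U a})

theorem TT_none {a : M} {t : Function.End (Option (X a))} (ht : t ∈ TT a) : t none = none := by
  induction ht using Submonoid.closure_induction with
  | mem x hx =>
    rcases hx with ⟨m, rfl⟩ | hx
    · rfl
    · rw [Set.mem_singleton_iff.1 hx]; rfl
  | one => rfl
  | mul x y _ _ h1 h2 =>
    show x (y none) = none
    rw [h2, h1]

theorem nf {a : M} (ha : ∀ z, z * a ≠ 1) {t : Function.End (Option (X a))} (ht : t ∈ TT a) :
    ∃ Q e, Good a Q ∧ Le t (W a Q * A a e) := by
  induction ht using Submonoid.closure_induction with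
  | mem x hx =>
    rcases hx with ⟨m, rfl⟩ | hx
    · exact ⟨[], m, fun q hq => absurd hq (by simp), fun o _ => rfl⟩
    · rw [Set.mem_singleton_iff.1 hx]
      refine ⟨[1], 1, ?_, fun o _ => ?_⟩
      · intro q hq
        rw [List.mem_singleton.1 hq]
        rintro ⟨z, hz⟩
        exact ha z hz
      · simp [W, A_one]
  | one => exact ⟨[], 1, fun q hq => absurd hq (by simp), fun o _ => by simp [W, A_one]⟩
  | mul x y hx hy h1 h2 =>
    obtain ⟨Q1, e1, g1, l1⟩ := h1
    obtain ⟨Q2, e2, g2, l2⟩ := h2
    obtain ⟨Q', e', g', _, l'⟩ := nf1 Q2 e1 g2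
    refine ⟨Q1 ++ Q', e' * e2, ?_, fun o ho => ?_⟩
    · intro q hq
      rcases List.mem_append.1 hq with h | h
      · exact g1 q h
      · exact g' q h
    · have c1 : (x * y) o = x (y o) := rfl
      rw [c1] at ho ⊢
      have hy0 : y o ≠ none := by
        intro h; rw [h, TT_none hx] at ho; exact ho rfl
      have c2 := l2 o hy0
      rw [c2] at ho ⊢
      have c3 := l1 _ ho
      rw [c3] at ho ⊢
      have c4 : (W a Q1 * A a e1) ((W a Q2 * A a e2) o) = W a Q1 ((A a e1 * W a Q2) (A a e2 o)) := rfl
      rw [c4] at ho ⊢
      have c5 : (A a e1 * W a Q2) (A a e2 o) ≠ none := by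
        intro h; rw [h, W_none] at ho; exact ho rfl
      rw [l' _ c5, W_append, A_mul]
      rfl

/-- peeling of the pushes -/
noncomputable def G (a : M) : List M → M → Option M
  | [], m => some m
  | q :: Q, m => open Classical in if InL a (m * q) then G a Q (yy a (m * q)) else none

/-- the value of a blocked state -/
noncomputable def V (a : M) : List M → M → Prop × Option M
  | [], m => (InR a m, none)
  | q :: Q, m => open Classical in if InL a (m * q) then V a Q (yy a (m * q)) else (InR a (m * q), none)

open Classical in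
theorem W_eval {a : M} (Q : List M) : ∀ (γ γ' : X a), W a Q (some γ) = some γ' → ∀ m,
    (∀ g, G a Q m = some g → γ'.1 m = γ.1 g) ∧ (G a Q m = none → γ'.1 m = V a Q m) := by
  induction Q with
  | nil =>
    intro γ γ' h m
    have : γ = γ' := Option.some.inj h
    subst this
    refine ⟨fun g hg => ?_, fun hg => ?_⟩
    · rw [show m = g from Option.some.inj hg]
    · exact absurd hg (by simp [G])
  | cons q Q ih =>
    intro γ γ' h m
    have e1 : W a (q :: Q) (some γ) = A a q (U a (W a Q (some γ))) := rfl
    rw [e1] at h
    rcases hW : W a Q (some γ) with _ | γ1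
    · rw [hW] at h
      exact absurd h (by rw [U_none]; exact fun h => by cases h)
    · rw [hW] at h
      have hs : (γ1.1 1).1 := by
        apply U_st
        intro h'
        rw [h'] at h
        cases h
      rw [U_some _ hs] at h
      have h2 : act a q (push a γ1 hs) = γ' := Option.some.inj h
      have h3 : γ'.1 m = pf a γ1.1 (m * q) := by rw [← h2]; rfl
      by_cases hL : InL a (m * q)
      · rw [pf_pos hL] at h3
        have e4 : G a (q :: Q) m = G a Q (yy a (m * q)) := by
          show (if InL a (m * q) then _ else _) = _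
          rw [if_pos hL]
        have e5 : V a (q :: Q) m = V a Q (yy a (m * q)) := by
          show (if InL a (m * q) then _ else _) = _
          rw [if_pos hL]
        rw [e4, e5, h3]
        exact ih γ γ1 hW _
      · rw [pf_neg hL] at h3
        have e4 : G a (q :: Q) m = none := by
          show (if InL a (m * q) then _ else _) = _
          rw [if_neg hL]
        have e5 : V a (q :: Q) m = (InR a (m * q), none) := by
          show (if InL a (m * q) then _ else _) = _
          rw [if_neg hL]
        rw [e4, e5, h3]
        exact ⟨fun g hg => (by cases hg), fun _ => rfl⟩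

theorem W_inR {a : M} (Q : List M) : ∀ (γ γ' : X a), Good a Q → W a Q (some γ) = some γ' → (γ'.1 1).1 →
    ∀ q ∈ Q, InR a q := by
  induction Q with
  | nil => intro γ γ' _ _ _ q hq; exact absurd hq (by simp)
  | cons q Q ih =>
    intro γ γ' hQ h hs
    have e1 : W a (q :: Q) (some γ) = A a q (U a (W a Q (some γ))) := rfl
    rw [e1] at h
    rcases hW : W a Q (some γ) with _ | γ1
    · rw [hW] at h
      exact absurd h (by rw [U_none]; exact fun h => by cases h)
    · rw [hW] at h
      have hs1 : (γ1.1 1).1 := by
        apply U_st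
        intro h'
        rw [h'] at h
        cases h
      rw [U_some _ hs1] at h
      have h2 : act a q (push a γ1 hs1) = γ' := Option.some.inj h
      have h3 : γ'.1 1 = pf a γ1.1 (1 * q) := by rw [← h2]; rfl
      rw [one_mul, pf_neg (hQ q (List.mem_cons_self))] at h3
      rw [h3] at hs
      intro q' hq'
      rcases List.mem_cons.1 hq' with rfl | hq'
      · exact hs
      · exact ih γ γ1 (fun q hq => hQ q (List.mem_cons_of_mem _ hq)) hW hs1 q' hq'

theorem W_st {a : M} (Q : List M) (hQ : Q ≠ []) (γ : X a) (h : W a Q (some γ) ≠ none) : (γ.1 1).1 := by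
  induction Q with
  | nil => exact absurd rfl hQ
  | cons q Q ih =>
    have e1 : W a (q :: Q) (some γ) = A a q (U a (W a Q (some γ))) := rfl
    by_cases hQ' : Q = []
    · subst hQ'
      apply U_st
      intro h'
      apply h
      rw [e1]
      show A a q (U a (some γ)) = none
      rw [h']; rfl
    · apply ih hQ'
      intro h'
      apply h
      rw [e1, h']; rfl

open Classical in
theorem G_mul {a : M} (Q : List M) (hQ : ∀ q ∈ Q, InR a q) : ∃ x : M, ∀ m g, G a Q m = some g → g * a = m * a * x := by
  induction Q with
  | nil => exact ⟨1, fun m g h => by rw [show m = g from Option.some.inj h, mul_one]⟩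
  | cons q Q ih =>
    obtain ⟨x, hx⟩ := ih (fun q hq => hQ q (List.mem_cons_of_mem _ hq))
    obtain ⟨z, hz⟩ := hQ q (List.mem_cons_self)
    refine ⟨z * x, fun m g h => ?_⟩
    by_cases hL : InL a (m * q)
    · have e4 : G a (q :: Q) m = G a Q (yy a (m * q)) := by
        show (if InL a (m * q) then _ else _) = _
        rw [if_pos hL]
      rw [e4] at h
      rw [hx _ _ h, yy_spec hL, ← hz]
      simp [mul_assoc]
    · have e4 : G a (q :: Q) m = none := by
        show (if InL a (m * q) then _ else _) = _
        rw [if_neg hL]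
      rw [e4] at h
      cases h

open Classical in
theorem G_append {a : M} (Q Q' : List M) : ∀ m, G a (Q ++ Q') m = (G a Q m).bind (G a Q') := by
  induction Q with
  | nil => intro m; rfl
  | cons q Q ih =>
    intro m
    show (if InL a (m * q) then G a (Q ++ Q') (yy a (m * q)) else none) =
      (if InL a (m * q) then G a Q (yy a (m * q)) else none).bind (G a Q')
    by_cases hL : InL a (m * q)
    · rw [if_pos hL, if_pos hL, ih]
    · rw [if_neg hL, if_neg hL]; rfl

/-- repeated lists -/
def rep (Q : List M) : ℕ → List M
  | 0 => []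
  | n + 1 => Q ++ rep Q n

theorem W_rep (a : M) (Q : List M) (n : ℕ) : W a (rep Q n) = (W a Q) ^ n := by
  induction n with
  | zero => rfl
  | succ n ih => rw [rep, W_append, ih, pow_succ']

theorem G_rep {a : M} {Q : List M} {x : M} (hx : ∀ m g, G a Q m = some g → g * a = m * a * x) (n : ℕ) :
    ∀ m g, G a (rep Q n) m = some g → g * a = m * a * x ^ n := by
  induction n with
  | zero => intro m g h; rw [show m = g from Option.some.inj h, pow_zero, mul_one]
  | succ n ih =>
    intro m g h
    rw [rep, G_append] at h
    rcases h1 : G a Q m with _ | m1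
    · rw [h1] at h; cases h
    · rw [h1] at h
      have h2 : G a (rep Q n) m1 = some g := h
      rw [ih _ _ h2, hx _ _ h1, pow_succ']
      simp [mul_assoc]

theorem pow_stab {x : M} {N : ℕ} (h : x ^ (N + 1) = x ^ N) {n : ℕ} (hn : N ≤ n) : x ^ (n + 1) = x ^ n := by
  obtain ⟨k, rfl⟩ := Nat.exists_eq_add_of_le hn
  rw [show N + k + 1 = (N + 1) + k by ring, pow_add, h, ← pow_add]

theorem fix_W {a : M} (hM : ∀ m : M, ∃ n, m ^ (n + 1) = m ^ n) {Q : List M} (hQ : Good a Q) {β : X a} {k : ℕ}
    (hk : (W a Q ^ (k + 1)) (some β) = some β) : W a Q (some β) = some β := by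
  by_cases hne : Q = []
  · subst hne; rfl
  rcases hW : W a Q (some β) with _ | β'
  · rw [pow_succ] at hk
    have : (W a Q ^ k) (W a Q (some β)) = some β := hk
    rw [hW, pow_none (W_none a Q)] at this
    cases this
  -- β is in the image
  have hpre : ∃ γ : X a, W a Q (some γ) = some β := by
    rw [pow_succ'] at hk
    have h1 : W a Q ((W a Q ^ k) (some β)) = some β := hk
    rcases h2 : (W a Q ^ k) (some β) with _ | γ
    · rw [h2, W_none] at h1; cases h1
    · exact ⟨γ, by rw [← h2]; exact h1⟩
  obtain ⟨γ, hγ⟩ := hpre
  have hst : (β.1 1).1 := W_st Q hne β (by rw [hW]; exact fun h => by cases h)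
  have hR := W_inR Q γ β hQ hγ hst
  obtain ⟨x, hx⟩ := G_mul Q hR
  obtain ⟨N, hN⟩ := hM x
  have hfix : ∀ j : ℕ, (W a Q ^ ((k + 1) * j)) (some β) = some β := by
    intro j
    induction j with
    | zero => rfl
    | succ j ih =>
      rw [Nat.mul_succ, pow_add]
      show (W a Q ^ ((k + 1) * j)) ((W a Q ^ (k + 1)) (some β)) = some β
      rw [hk, ih]
  have hn1 := hfix N
  have hn2 : (W a Q ^ ((k + 1) * N)) (some β') = some β' := by
    rw [← hW]
    have : (W a Q ^ ((k + 1) * N)) (W a Q (some β)) = (W a Q ^ ((k + 1) * N) * W a Q) (some β) := rfl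
    rw [this, ← pow_succ, pow_succ']
    show W a Q ((W a Q ^ ((k + 1) * N)) (some β)) = W a Q (some β)
    rw [hn1]
  set n := (k + 1) * N with hn
  have hNn : N ≤ n := by rw [hn]; nlinarith
  rw [← W_rep] at hn1 hn2
  have hgx := G_rep hx n
  have key : ∀ m, β'.1 m = β.1 m := by
    intro m
    have h1 := W_eval _ _ _ hn1 m
    have h2 := W_eval _ _ _ hn2 m
    rcases hG : G a (rep Q n) m with _ | g
    · rw [h1.2 hG, h2.2 hG]
    · rw [h1.1 g hG, h2.1 g hG]
      have h3 := W_eval _ _ _ hW g
      have h4 := W_eval _ _ _ hγ g
      rcases hG' : G a Q g with _ | g'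
      · rw [h3.2 hG', h4.2 hG']
      · rw [h3.1 g' hG']
        apply coh_one β hst
        rw [hx _ _ hG', hgx _ _ hG, mul_assoc, ← pow_succ, pow_stab hN hNn]
  have : β' = β := Subtype.ext (funext key)
  rw [this]

theorem fix_A {a : M} (hM : ∀ m : M, ∃ n, m ^ (n + 1) = m ^ n) {e : M} {β : X a} {k : ℕ}
    (hk : (A a e ^ (k + 1)) (some β) = some β) : A a e (some β) = some β := by
  obtain ⟨N, hN⟩ := hM e
  have hfix : ∀ j : ℕ, (A a e ^ ((k + 1) * j)) (some β) = some β := by
    intro j
    induction j with
    | zero => rfl
    | succ j ih =>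
      rw [Nat.mul_succ, pow_add]
      show (A a e ^ ((k + 1) * j)) ((A a e ^ (k + 1)) (some β)) = some β
      rw [hk, ih]
  have h1 := hfix N
  have hNn : N ≤ (k + 1) * N := by nlinarith
  have hA : ∀ n, A a e ^ n = A a (e ^ n) := fun n => (map_pow (Ah a) e n).symm
  have h2 : (A a e ^ ((k + 1) * N + 1)) (some β) = (A a e ^ ((k + 1) * N)) (some β) := by
    rw [hA, hA, pow_stab hN hNn]
  rw [h1, pow_succ'] at h2
  have h3 : A a e ((A a e ^ ((k + 1) * N)) (some β)) = some β := h2
  rw [h1] at h3
  exact h3

theorem fix_AW {a : M} (hM : ∀ m : M, ∃ n, m ^ (n + 1) = m ^ n) (Q : List M) : ∀ (e : M), Good a Q →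
    ∀ (β : X a) (k : ℕ), ((A a e * W a Q) ^ (k + 1)) (some β) = some β → (A a e * W a Q) (some β) = some β := by
  induction Q with
  | nil =>
    intro e _ β k hk
    have e1 : A a e * W a [] = A a e := by simp [W]
    rw [e1] at hk ⊢
    exact fix_A hM hk
  | cons q Q ih =>
    intro e hQ β k hk
    have hQ' : Good a Q := fun q' hq' => hQ q' (List.mem_cons_of_mem _ hq')
    have e1 : A a e * W a (q :: Q) = A a (e * q) * U a * W a Q := by
      rw [A_mul]; simp [W, mul_assoc]
    by_cases hL : InL a (e * q)
    · have hle : Le (A a e * W a (q :: Q)) (A a (yy a (e * q)) * W a Q) := by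
        intro o ho
        rw [e1] at ho ⊢
        exact pop hL (W a Q o) ho
      have h0 : (A a e * W a (q :: Q)) none = none := by
        show A a e (W a (q :: Q) none) = none
        rw [W_none]; rfl
      have h1 := hle.pow h0 (k + 1) (some β) (by rw [hk]; exact fun h => by cases h)
      rw [hk] at h1
      have h2 := ih (yy a (e * q)) hQ' β k h1.symm
      rw [← h2]
      have h3 : (A a e * W a (q :: Q)) (some β) ≠ none := by
        intro h
        rw [pow_succ] at hk
        have : ((A a e * W a (q :: Q)) ^ k) ((A a e * W a (q :: Q)) (some β)) = some β := hk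
        rw [h, pow_none h0] at this
        cases this
      rw [h2]
      rw [hle _ h3, h2]
    · have e2 : A a e * W a (q :: Q) = W a ((e * q) :: Q) := by rw [e1]; rfl
      rw [e2] at hk ⊢
      apply fix_W hM _ hk
      intro q' hq'
      rcases List.mem_cons.1 hq' with rfl | h
      · exact hL
      · exact hQ' q' h

theorem fix_T {a : M} (hM : ∀ m : M, ∃ n, m ^ (n + 1) = m ^ n) (ha : ∀ z, z * a ≠ 1)
    {t : Function.End (Option (X a))} (ht : t ∈ TT a) (β : X a) (k : ℕ)
    (hk : (t ^ (k + 1)) (some β) = some β) : t (some β) = some β := by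
  obtain ⟨Q, e, hQ, hle⟩ := nf ha ht
  have ht0 := TT_none ht
  have hf := (hle.pow ht0 (k + 1)) (some β) (by rw [hk]; exact fun h => by cases h)
  rw [hk] at hf
  have hsome : t (some β) ≠ none := by
    intro h
    rw [pow_succ] at hk
    have : (t ^ k) (t (some β)) = some β := hk
    rw [h, pow_none ht0] at this
    cases this
  rw [hle _ hsome]
  -- conjugation
  rcases hb : A a e (some β) with _ | β1
  · cases hb
  have hconj : ∀ j : ℕ, A a e * (W a Q * A a e) ^ j = (A a e * W a Q) ^ j * A a e := by
    intro j
    induction j with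
    | zero => simp
    | succ j ih => rw [pow_succ', ← mul_assoc, ← mul_assoc, mul_assoc _ (A a e), ih, ← mul_assoc, ← pow_succ']
  have h1 : ((A a e * W a Q) ^ (k + 1)) (some β1) = some β1 := by
    rw [← hb]
    have := congrFun (hconj (k + 1)) (some β)
    have h2 : A a e (((W a Q * A a e) ^ (k + 1)) (some β)) = ((A a e * W a Q) ^ (k + 1)) (A a e (some β)) := this
    rw [← h2, ← hf]
  have h3 := fix_AW hM Q e hQ β1 k h1
  -- f fixes f β
  set f := W a Q * A a e with hfdef
  have h4 : f (f (some β)) = f (some β) := by
    have e1 : f (f (some β)) = W a Q ((A a e * W a Q) (A a e (some β))) := rfl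
    rw [e1, hb, h3, ← hb]
    rfl
  have h5 : ∀ j : ℕ, (f ^ j) (f (some β)) = f (some β) := by
    intro j
    induction j with
    | zero => rfl
    | succ j ih =>
      rw [pow_succ]
      show (f ^ j) (f (f (some β))) = _
      rw [h4, ih]
  have h6 : (f ^ (k + 1)) (some β) = f (some β) := by
    rw [pow_succ]
    exact h5 k
  rw [← h6, ← hf]

/-- a finite aperiodic monoid in which the image of `a` is regular -/
theorem step [Finite M] (hM : ∀ m : M, ∃ n, m ^ (n + 1) = m ^ n) (a : M) :
    ∃ (T : Type) (_ : Monoid T) (_ : Finite T) (f : M →* T), Injective f ∧ (∀ t : T, ∃ n, t ^ (n + 1) = t ^ n) ∧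
      ∃ x, f a * x * f a = f a := by
  by_cases ha : ∃ z, z * a = 1
  · obtain ⟨z, hz⟩ := ha
    exact ⟨M, inferInstance, inferInstance, MonoidHom.id M, fun _ _ h => h, hM, z, by
      show a * z * a = a
      rw [mul_assoc, hz, mul_one]⟩
  · have ha' : ∀ z, z * a ≠ 1 := fun z hz => ha ⟨z, hz⟩
    have hmem : ∀ m, Ah a m ∈ TT a := fun m => Submonoid.subset_closure (Or.inl ⟨m, rfl⟩)
    have hfin : Finite (Function.End (Option (X a))) := by
      unfold Function.End
      infer_instance
    refine ⟨TT a, inferInstance, inferInstance, (Ah a).codRestrict (TT a) hmem, ?_, ?_, ?_⟩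
    · intro m m' h
      exact A_inj a (congrArg Subtype.val h)
    · intro t
      obtain ⟨i, j, hij, h⟩ : ∃ i j : ℕ, i < j ∧ t ^ i = t ^ j := by
        obtain ⟨i, j, hne, h⟩ := Finite.exists_ne_map_eq_of_infinite (fun n : ℕ => t ^ n)
        rcases lt_or_gt_of_ne hne with h' | h'
        · exact ⟨i, j, h', h⟩
        · exact ⟨j, i, h', h.symm⟩
      obtain ⟨k, rfl⟩ := Nat.exists_eq_add_of_lt hij
      refine ⟨i, ?_⟩
      apply Subtype.ext
      funext o
      have h' : (t : Function.End (Option (X a))) ^ i = (t : Function.End (Option (X a))) ^ (i + k + 1) := by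
        have := congrArg Subtype.val h
        simpa using this
      show ((t ^ (i + 1) : TT a) : Function.End (Option (X a))) o = ((t ^ i : TT a) : Function.End (Option (X a))) o
      rw [SubmonoidClass.coe_pow, SubmonoidClass.coe_pow, pow_succ']
      show (t : Function.End (Option (X a))) (((t : Function.End (Option (X a))) ^ i) o) = _
      rcases ho : ((t : Function.End (Option (X a))) ^ i) o with _ | β
      · exact TT_none t.2
      · apply fix_T hM ha' t.2 β k
        rw [← ho]
        have : (t : Function.End (Option (X a))) ^ (k + 1) * (t : Function.End (Option (X a))) ^ i =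
            (t : Function.End (Option (X a))) ^ i := by
          rw [← pow_add, show k + 1 + i = i + k + 1 by ring, ← h']
        exact congrFun this o
    · refine ⟨⟨U a, Submonoid.subset_closure (Or.inr rfl)⟩, ?_⟩
      apply Subtype.ext
      exact A_reg a

end Pool.Agent.H61.RA
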