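import Pool.Agent.H61.RA.Step

/-!
# All elements of a finite aperiodic semigroup made regular; the locally finite union
-/

set_option autoImplicit false

namespace Pool.Agent.H61.RA

open Function

/-- `x ^ (n + 1) = x ^ n` for some `n`, for each `x` -/
def Stab (M : Type) [Monoid M] : Prop := ∀ m : M, ∃ n, m ^ (n + 1) = m ^ n

theorem stepList (l : ℕ) : ∀ (M : Type) [Monoid M] [Finite M], Stab M → ∀ a : Fin l → M,
    ∃ (T : Type) (_ : Monoid T) (_ : Finite T) (f : M →* T), Injective f ∧ Stab T ∧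
      ∀ i, ∃ x, f (a i) * x * f (a i) = f (a i) := by
  induction l with
  | zero =>
    intro M _ _ hM a
    exact ⟨M, inferInstance, inferInstance, MonoidHom.id M, fun _ _ h => h, hM, fun i => i.elim0⟩
  | succ l ih =>
    intro M _ _ hM a
    obtain ⟨T, iT, iF, f, hf, hT, hr⟩ := ih M hM (fun i => a i.castSucc)
    obtain ⟨T', iT', iF', g, hg, hT', x, hx⟩ := step hT (f (a (Fin.last l)))
    refine ⟨T', iT', iF', g.comp f, hg.comp hf, hT', fun i => ?_⟩
    refine Fin.lastCases ?_ (fun i => ?_) i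
    · exact ⟨x, hx⟩
    · obtain ⟨y, hy⟩ := hr i
      refine ⟨g y, ?_⟩
      show g (f (a i.castSucc)) * g y * g (f (a i.castSucc)) = g (f (a i.castSucc))
      rw [← map_mul, ← map_mul, hy]

theorem stepAll (M : Type) [Monoid M] [Finite M] (hM : Stab M) :
    ∃ (T : Type) (_ : Monoid T) (_ : Finite T) (f : M →* T), Injective f ∧ Stab T ∧
      ∀ a : M, ∃ x, f a * x * f a = f a := by
  obtain ⟨n, ⟨e⟩⟩ := Finite.exists_equiv_fin M
  obtain ⟨T, iT, iF, f, hf, hT, hr⟩ := stepList n M hM e.symm
  refine ⟨T, iT, iF, f, hf, hT, fun a => ?_⟩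
  obtain ⟨x, hx⟩ := hr (e a)
  rw [e.symm_apply_apply] at hx
  exact ⟨x, hx⟩

/-- finite aperiodic monoids -/
structure FA : Type 1 where
  /-- the carrier -/
  C : Type
  /-- the monoid structure -/
  [mon : Monoid C]
  /-- finite -/
  [fin : Finite C]
  /-- aperiodic -/
  st : Stab C

attribute [instance] FA.mon FA.fin

theorem nextEx (P : FA) : ∃ (Q : FA) (f : P.C →* Q.C), Injective f ∧ ∀ a : P.C, ∃ x, f a * x * f a = f a := by
  obtain ⟨T, iT, iF, f, hf, hT, hr⟩ := stepAll P.C P.st
  exact ⟨⟨T, hT⟩, f, hf, hr⟩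

/-- the next monoid -/
noncomputable def next (P : FA) : FA := (nextEx P).choose

/-- the embedding into the next monoid -/
noncomputable def emb (P : FA) : P.C →* (next P).C := (nextEx P).choose_spec.choose

theorem emb_inj (P : FA) : Injective (emb P) := (nextEx P).choose_spec.choose_spec.1

theorem emb_reg (P : FA) (a : P.C) : ∃ x, emb P a * x * emb P a = emb P a :=
  (nextEx P).choose_spec.choose_spec.2 a

/-- the tower -/
noncomputable def tw (P : FA) : ℕ → FA
  | 0 => P
  | n + 1 => next (tw P n)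

/-- the maps of the tower -/
noncomputable def phi (P : FA) (n : ℕ) : (tw P n).C →* (tw P (n + 1)).C := emb (tw P n)

theorem phi_inj (P : FA) (n : ℕ) : Injective (phi P n) := emb_inj (tw P n)

/-- the eventually compatible sequences -/
def ES (P : FA) : Submonoid (∀ n, (tw P n).C) where
  carrier := {g | ∃ n, ∀ k, n ≤ k → g (k + 1) = phi P k (g k)}
  one_mem' := ⟨0, fun k _ => by simp⟩
  mul_mem' := by
    rintro g h ⟨n, hn⟩ ⟨m, hm⟩
    refine ⟨max n m, fun k hk => ?_⟩
    simp [hn k (le_trans (le_max_left _ _) hk), hm k (le_trans (le_max_right _ _) hk)]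

/-- eventual equality -/
def EE (P : FA) : Con (ES P) where
  r g h := ∃ n, ∀ k, n ≤ k → g.1 k = h.1 k
  iseqv := ⟨fun g => ⟨0, fun _ _ => rfl⟩, fun ⟨n, h⟩ => ⟨n, fun k hk => (h k hk).symm⟩, fun ⟨n, h⟩ ⟨m, h'⟩ =>
    ⟨max n m, fun k hk => (h k (le_trans (le_max_left _ _) hk)).trans (h' k (le_trans (le_max_right _ _) hk))⟩⟩
  mul' := by
    rintro w x y z ⟨n, h⟩ ⟨m, h'⟩
    refine ⟨max n m, fun k hk => ?_⟩
    show w.1 k * y.1 k = x.1 k * z.1 k
    rw [h k (le_trans (le_max_left _ _) hk), h' k (le_trans (le_max_right _ _) hk)]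

/-- the union of the tower -/
abbrev RR (P : FA) : Type := (EE P).Quotient

open Classical in
/-- the sequence starting with `x` at `n` -/
noncomputable def ext (P : FA) (n : ℕ) (x : (tw P n).C) : ∀ k, (tw P k).C
  | 0 => if h : n = 0 then h ▸ x else 1
  | k + 1 => if h : n = k + 1 then h ▸ x else phi P k (ext P n x k)

theorem ext_self (P : FA) (n : ℕ) (x : (tw P n).C) : ext P n x n = x := by
  cases n with
  | zero => simp [ext]
  | succ n => simp [ext]

theorem ext_succ (P : FA) (n : ℕ) (x : (tw P n).C) {k : ℕ} (hk : n ≤ k) :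
    ext P n x (k + 1) = phi P k (ext P n x k) := by
  rw [ext]
  rw [dif_neg (by omega)]

theorem ext_mul (P : FA) (n : ℕ) (x y : (tw P n).C) (k : ℕ) :
    ext P n (x * y) k = ext P n x k * ext P n y k := by
  induction k with
  | zero =>
    by_cases h : n = 0
    · subst h; simp [ext]
    · simp [ext, h]
  | succ k ih =>
    by_cases h : n = k + 1
    · subst h; simp [ext]
    · simp [ext, h, ih]

theorem ext_one (P : FA) (n : ℕ) (k : ℕ) : ext P n 1 k = 1 := by
  induction k with
  | zero =>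
    by_cases h : n = 0
    · subst h; simp [ext]
    · simp [ext, h]
  | succ k ih =>
    by_cases h : n = k + 1
    · subst h; simp [ext]
    · simp [ext, h, ih]

/-- the homomorphism of the `n`-th monoid to the sequences -/
noncomputable def exth (P : FA) (n : ℕ) : (tw P n).C →* ES P where
  toFun x := ⟨ext P n x, n, fun _ hk => ext_succ P n x hk⟩
  map_one' := Subtype.ext (funext (ext_one P n))
  map_mul' x y := Subtype.ext (funext (ext_mul P n x y))

/-- the homomorphism of the `n`-th monoid to the union -/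
noncomputable def iot (P : FA) (n : ℕ) : (tw P n).C →* RR P := (EE P).mk'.comp (exth P n)

theorem iot_eq {P : FA} {g h : ES P} : ((g : RR P) = (h : RR P)) ↔ ∃ n, ∀ k, n ≤ k → g.1 k = h.1 k :=
  (EE P).eq

theorem seq_inj {P : FA} {g h : ES P} {n m : ℕ} (hg : ∀ k, n ≤ k → g.1 (k + 1) = phi P k (g.1 k))
    (hh : ∀ k, n ≤ k → h.1 (k + 1) = phi P k (h.1 k)) (e : ∀ k, m ≤ k → g.1 k = h.1 k) :
    ∀ k, n ≤ k → g.1 k = h.1 k := by
  intro k hk
  by_contra hne
  have : ∀ j, g.1 (k + j) ≠ h.1 (k + j) := by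
    intro j
    induction j with
    | zero => exact hne
    | succ j ih =>
      intro h'
      rw [← add_assoc, hg _ (by omega), hh _ (by omega)] at h'
      exact ih (phi_inj P _ h')
  exact this m (e _ (by omega))

theorem iot_inj (P : FA) (n : ℕ) : Injective (iot P n) := by
  intro x y h
  obtain ⟨m, hm⟩ := iot_eq.1 h
  have := seq_inj (g := exth P n x) (h := exth P n y) (n := n) (fun k hk => ext_succ P n x hk)
    (fun k hk => ext_succ P n y hk) hm n le_rfl
  have e1 : (exth P n x).1 n = x := ext_self P n x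
  have e2 : (exth P n y).1 n = y := ext_self P n y
  rw [e1, e2] at this
  exact this

theorem iot_phi (P : FA) (n : ℕ) (x : (tw P n).C) : iot P (n + 1) (phi P n x) = iot P n x := by
  apply iot_eq.2
  refine ⟨n + 1, fun k hk => ?_⟩
  show ext P (n + 1) (phi P n x) k = ext P n x k
  induction k, hk using Nat.le_induction with
  | base => rw [ext_self, ext_succ P n x le_rfl, ext_self]
  | succ k hk ih => rw [ext_succ _ _ _ hk, ih, ext_succ P n x (by omega)]

theorem iot_mono (P : FA) {n m : ℕ} (h : n ≤ m) (x : (tw P n).C) : ∃ y, iot P m y = iot P n x := by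
  induction m, h using Nat.le_induction with
  | base => exact ⟨x, rfl⟩
  | succ m _ ih =>
    obtain ⟨y, hy⟩ := ih
    exact ⟨phi P m y, by rw [iot_phi, hy]⟩

theorem iot_surj (P : FA) (r : RR P) : ∃ n x, iot P n x = r := by
  induction r using Con.induction_on with
  | H g =>
    obtain ⟨n, hn⟩ := g.2
    refine ⟨n, g.1 n, ?_⟩
    apply iot_eq.2
    refine ⟨n, fun k hk => ?_⟩
    show ext P n (g.1 n) k = g.1 k
    induction k, hk using Nat.le_induction with
    | base => rw [ext_self]
    | succ k hk ih => rw [ext_succ _ _ _ hk, ih, hn k hk]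

theorem RR_reg (P : FA) (r : RR P) : ∃ x, r * x * r = r := by
  obtain ⟨n, x, rfl⟩ := iot_surj P r
  obtain ⟨y, hy⟩ : ∃ y : (tw P (n + 1)).C, phi P n x * y * phi P n x = phi P n x := emb_reg (tw P n) x
  refine ⟨iot P (n + 1) y, ?_⟩
  rw [← iot_phi, ← map_mul, ← map_mul, hy]

theorem RR_stab (P : FA) : Stab (RR P) := by
  intro r
  obtain ⟨n, x, rfl⟩ := iot_surj P r
  obtain ⟨k, hk⟩ := (tw P n).st x
  exact ⟨k, by rw [← map_pow, ← map_pow, hk]⟩

theorem RR_finset (P : FA) (F : Finset (RR P)) : ∃ n, ∀ r ∈ F, ∃ x, iot P n x = r := by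
  classical
  induction F using Finset.induction_on with
  | empty => exact ⟨0, fun r hr => absurd hr (by simp)⟩
  | insert a F _ ih =>
    obtain ⟨n, hn⟩ := ih
    obtain ⟨m, x, hx⟩ := iot_surj P a
    refine ⟨max n m, fun r hr => ?_⟩
    rcases Finset.mem_insert.1 hr with rfl | hr
    · obtain ⟨y, hy⟩ := iot_mono P (le_max_right n m) x
      exact ⟨y, by rw [hy, hx]⟩
    · obtain ⟨z, hz⟩ := hn r hr
      obtain ⟨y, hy⟩ := iot_mono P (le_max_left n m) z
      exact ⟨y, by rw [hy, hz]⟩

theorem RR_lf (P : FA) (F : Finset (RR P)) : ((Subsemigroup.closure (F : Set (RR P)) : Subsemigroup (RR P)) :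
    Set (RR P)).Finite := by
  obtain ⟨n, hn⟩ := RR_finset P F
  have hle : (Subsemigroup.closure (F : Set (RR P)) : Subsemigroup (RR P)) ≤ (iot P n).srange := by
    rw [Subsemigroup.closure_le]
    intro r hr
    obtain ⟨x, hx⟩ := hn r hr
    exact ⟨x, hx⟩
  refine Set.Finite.subset (s := Set.range (iot P n)) (Set.finite_range _) ?_
  intro r hr
  obtain ⟨x, hx⟩ := hle hr
  exact ⟨x, hx⟩

theorem RR_countable (P : FA) : Countable (RR P) := by
  have : ∀ n, Countable (tw P n).C := fun n => Finite.to_countable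
  have hs : Function.Surjective (fun p : Σ n, (tw P n).C => iot P p.1 p.2) := by
    intro r
    obtain ⟨n, x, hx⟩ := iot_surj P r
    exact ⟨⟨n, x⟩, hx⟩
  exact hs.countable

end Pool.Agent.H61.RA
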